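import Pool.Agent.helper17.EXT.Spec

/-!
# Project EXT (MP_561ff4_al), row ARF: every automorphism permutes the long root subgroups
-/

set_option autoImplicit false

open Finset

namespace Pool.Agent.EXT

open Pool.Agent.EXC

theorem ARF_isf {K : Type} [Field K] (τ : K ≃+* K) (κ t : K) (a : Lm C6 K)
    (y : Equiv.Perm (LT τ)) : IsF τ (κ • a) t y ↔ IsF τ a (κ * t) y := by
  unfold IsF
  refine forall_congr' fun v => ?_
  rw [ARA_xe]

theorem ARF_smul {K : Type} [Field K] (τ : K ≃+* K) (κ : K) (hκ : τ κ = κ) (hκ0 : κ ≠ 0)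
    (a : Lm C6 K) (y : Equiv.Perm (LT τ)) : InX τ (κ • a) y ↔ InX τ a y := by
  constructor
  · rintro ⟨t, ht, h⟩
    exact ⟨κ * t, by rw [map_mul, hκ, ht], (ARF_isf τ κ t a y).1 h⟩
  · rintro ⟨t, ht, h⟩
    refine ⟨κ⁻¹ * t, by rw [map_mul, map_inv₀, hκ, ht], (ARF_isf τ κ _ a y).2 ?_⟩
    rw [mul_inv_cancel_left₀ hκ0]
    exact h

theorem ARF_tr {K : Type} [Field K] (τ : K ≃+* K) (hτ : ∀ x, τ (τ x) = x) (hESF : ESF_stmt)
    (hGFX : GFX_stmt) (a : Lm C6 K) (ha : ExS τ a) (M : Equiv.Perm (LT τ)) (hM : M ∈ GF τ)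
    (m : Lm C6 K ≃ₗ[K] Lm C6 K) (hm : m ∈ GS τ) (hMm : ∀ v : LT τ, (M v : Lm C6 K) = m v)
    (y : Equiv.Perm (LT τ)) : InX τ (m a) y ↔ InX τ a (M⁻¹ * y * M) := by
  obtain ⟨-, h2⟩ := hGFX K τ hτ
  have hma : ExS τ (m a) := ((hESF K τ hτ).2 a ha).2.2.2.1 m hm
  constructor
  · rintro ⟨t, ht, h⟩
    have h3 := (h2 (m a) hma).2.2.2.2 M⁻¹ ((GF τ).inv_mem hM) m⁻¹ ((GS τ).inv_mem hm) (fun v => by
      have e := hMm (M⁻¹ v)
      have e2 : M (M⁻¹ v) = v := M.apply_symm_apply v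
      rw [e2] at e
      rw [e]
      exact (LinearEquiv.symm_apply_apply m _).symm) t y h
    have e3 : m⁻¹ (m a) = a := LinearEquiv.symm_apply_apply m a
    rw [e3, inv_inv] at h3
    exact ⟨t, ht, h3⟩
  · rintro ⟨t, ht, h⟩
    have h3 := (h2 a ha).2.2.2.2 M hM m hm hMm t _ h
    have e3 : M * (M⁻¹ * y * M) * M⁻¹ = y := by group
    rw [e3] at h3
    exact ⟨t, ht, h3⟩

theorem ARF (hWST : WST_stmt) (hWPS : WPS_stmt) (hSGR : SGR_stmt) (hESF : ESF_stmt)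
    (hGFX : GFX_stmt) (hSYT : SYT_stmt) (hCXT : CXT_stmt) (hRTF : RTF_stmt) : ARF_stmt := by
  intro K _ _ τ hτ hnd x
  obtain ⟨p, hp⟩ := CharP.exists K
  have hpr : p.Prime := CharP.char_is_prime K p
  have : Fact p.Prime := ⟨hpr⟩
  have hfin : Finite (GF τ) := by
    have h1 : Finite (LT τ) := Subtype.finite
    exact Subtype.finite
  have hth : LR th := hRTF.2.2.2.2.2.2.2.2.2.2.2.2.2.1
  have hthpos : Pos th := (f_DMN 6 CartanMatrix.E₆ 1 th ![0, 2, 3, 4, 5] f_DE6.2).1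
  have hExth : ExS τ (E C6 th : Lm C6 K) := (hESF K τ hτ).1 th hth
  have hthLT : (E C6 th : Lm C6 K) ∈ LT τ := ((hESF K τ hτ).2 _ hExth).2.2.1
  obtain ⟨hind, hXa⟩ := hGFX K τ hτ
  -- the `p`-group `U`
  let U : Subgroup (GF τ) :=
    { carrier := {f | ∃ u ∈ GS τ, u ∈ UG C6 K ∧ ∀ v : LT τ, ((f : Equiv.Perm (LT τ)) v : Lm C6 K) = u v}
      one_mem' := ⟨1, one_mem _, one_mem _, fun _ => rfl⟩
      mul_mem' := by
        rintro f f' ⟨u, h1, h2, h3⟩ ⟨u', h1', h2', h3'⟩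
        refine ⟨u * u', mul_mem h1 h1', mul_mem h2 h2', fun v => ?_⟩
        have e : (((f * f' : GF τ) : Equiv.Perm (LT τ)) v : Lm C6 K) =
            ((f : Equiv.Perm (LT τ)) ((f' : Equiv.Perm (LT τ)) v) : Lm C6 K) := rfl
        rw [e, h3, h3']
        rfl
      inv_mem' := by
        rintro f ⟨u, h1, h2, h3⟩
        refine ⟨u⁻¹, inv_mem h1, inv_mem h2, fun v => ?_⟩
        have e := h3 ((f : Equiv.Perm (LT τ))⁻¹ v)
        have e2 : (f : Equiv.Perm (LT τ)) ((f : Equiv.Perm (LT τ))⁻¹ v) = v :=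
          (f : Equiv.Perm (LT τ)).apply_symm_apply v
        rw [e2] at e
        have e3 : (((f⁻¹ : GF τ) : Equiv.Perm (LT τ)) v : Lm C6 K) =
            ((f : Equiv.Perm (LT τ))⁻¹ v : Lm C6 K) := rfl
        rw [e3, e]
        exact (LinearEquiv.symm_apply_apply u _).symm }
  have hUp : IsPGroup p U := by
    rintro ⟨f, u, h1, h2, h3⟩
    obtain ⟨k, hk⟩ := f_UPG 6 CartanMatrix.E₆ K p hpr hp u h2
    refine ⟨k, ?_⟩
    apply Subtype.ext
    apply Subtype.ext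
    apply Equiv.ext
    intro v
    apply Subtype.ext
    have h4 : ∀ (j : ℕ) (v : LT τ), (((f : Equiv.Perm (LT τ)) ^ j) v : Lm C6 K) = (u ^ j) (v : Lm C6 K) := by
      intro j
      induction j with
      | zero => intro v; rfl
      | succ j ih =>
        intro v
        rw [pow_succ, pow_succ, Equiv.Perm.mul_apply, ih, h3]
        rfl
    have h5 := h4 (p ^ k) v
    rw [hk] at h5
    exact h5
  obtain ⟨P, hP⟩ := hUp.exists_le_sylow
  have hUP : ∀ f : GF τ, (∃ u ∈ GS τ, u ∈ UG C6 K ∧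
      ∀ v : LT τ, ((f : Equiv.Perm (LT τ)) v : Lm C6 K) = u v) → f ∈ (P : Subgroup (GF τ)) :=
    fun f hf => hP hf
  have hfix := hSYT K τ hτ p hpr hp P P.2 hUP
  have hZ : ∀ f : GF τ, InX τ (E C6 th) (f : Equiv.Perm (LT τ)) ↔
      f ∈ (P : Subgroup (GF τ)) ∧ ∀ k ∈ (P : Subgroup (GF τ)), k * f = f * k := by
    intro f
    constructor
    · rintro ⟨t, ht, hft⟩
      refine ⟨?_, fun k hk => ?_⟩
      · obtain ⟨g, hg, hgt⟩ := (hSGR K τ hτ).2.1 th t hth ht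
        exact hUP f ⟨g, hg, Subgroup.subset_closure ⟨th, hth.1, hthpos, t, hgt⟩, fun v =>
          (hft v).trans (hgt v).symm⟩
      · obtain ⟨g, hg, hkg⟩ := k.2
        have h1 := (hXa _ hExth).2.2.2.2 k k.2 g hg hkg t f hft
        have h2 : g (E C6 th : Lm C6 K) = E C6 th := by
          have h3 := hfix k hk ⟨E C6 th, hthLT⟩ rfl
          have h4 := hkg ⟨E C6 th, hthLT⟩
          rw [h3] at h4
          exact h4.symm
        rw [h2] at h1
        have h3 : (k : Equiv.Perm (LT τ)) * f * (k : Equiv.Perm (LT τ))⁻¹ = f := by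
          apply Equiv.ext
          intro v
          apply Subtype.ext
          exact (h1 v).trans (hft v).symm
        apply Subtype.ext
        exact mul_inv_eq_iff_eq_mul.1 h3
    · rintro ⟨-, hk⟩
      obtain ⟨g, hg, hfg⟩ := f.2
      obtain ⟨t, ht, hgt⟩ := hCXT K τ hτ hnd g hg (fun u hu hu' v hv => by
        obtain ⟨fu, hfu, hfu'⟩ := hind u hu
        have h1 := hk ⟨fu, hfu⟩ (hUP ⟨fu, hfu⟩ ⟨u, hu, hu', hfu'⟩)
        have h2 : ∀ w : LT τ, fu ((f : Equiv.Perm (LT τ)) w) = (f : Equiv.Perm (LT τ)) (fu w) := by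
          intro w
          exact congrArg (fun z : GF τ => (z : Equiv.Perm (LT τ)) w) h1
        have h3 := congrArg (fun w : LT τ => (w : Lm C6 K)) (h2 ⟨v, hv⟩)
        have h4 : ((fu ((f : Equiv.Perm (LT τ)) ⟨v, hv⟩) : LT τ) : Lm C6 K) = u (g v) := by
          rw [hfu', hfg]
        have h5 : (((f : Equiv.Perm (LT τ)) (fu ⟨v, hv⟩) : LT τ) : Lm C6 K) = g (u v) := by
          rw [hfg, hfu']
        rw [← h4, ← h5]
        exact h3.symm)
      exact ⟨t, ht, fun v => (hfg v).trans (hgt v v.2)⟩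
  obtain ⟨g0, hg0⟩ := ARA_syl P x
  have hZφ := ARA_cen (P : Subgroup (GF τ)) _ hZ (MulAut.conj g0⁻¹ * x) hg0
  intro a ha
  obtain ⟨g₁, hg₁, β, hβ, c, hc, hc0, rfl⟩ := ha
  -- `E β` is conjugate to `± E th`
  have hW := hWST.1 β β th th hβ hβ hth hth (by rw [hβ.1, hth.1])
  obtain ⟨k, hk, s, -, hs, -, hkβ, -⟩ := hWPS K τ hτ β β th th hβ.1 hβ.1 hW
  have hss : (s : K) * (s : K) = 1 := by
    rcases hs with h | h <;> rw [h] <;> simp
  have hsf : τ (s : K) = s := map_intCast τ s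
  have hs0 : (s : K) ≠ 0 := by
    intro h0
    rw [h0, mul_zero] at hss
    exact zero_ne_one hss
  have hβk : (E C6 β : Lm C6 K) = (s : K) • k⁻¹ (E C6 th : Lm C6 K) := by
    have h1 : k ((s : K) • k⁻¹ (E C6 th : Lm C6 K)) = k (E C6 β : Lm C6 K) := by
      rw [map_smul, hkβ]
      congr 1
      exact k.apply_symm_apply _
    exact (k.injective h1).symm
  obtain ⟨m, hm⟩ : ∃ m : Lm C6 K ≃ₗ[K] Lm C6 K, m = g₁ * k⁻¹ := ⟨_, rfl⟩
  have hmS : m ∈ GS τ := by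
    rw [hm]
    exact mul_mem hg₁ (inv_mem hk)
  have ham : c • g₁ (E C6 β : Lm C6 K) = (c * (s : K)) • m (E C6 th : Lm C6 K) := by
    rw [hβk, map_smul, smul_smul, hm]
    rfl
  obtain ⟨M, hM, hMm⟩ := hind m hmS
  have hcs : τ (c * (s : K)) = c * (s : K) := by rw [map_mul, hc, hsf]
  -- the image
  obtain ⟨M', hM'⟩ : ∃ M' : GF τ, M' = x ⟨M, hM⟩ * g0 := ⟨_, rfl⟩
  obtain ⟨m', hm', hMm'⟩ := M'.2
  refine ⟨m' (E C6 th), ((hESF K τ hτ).2 _ hExth).2.2.2.1 m' hm', fun f => ?_⟩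
  rw [ham, ARF_smul τ _ hcs (mul_ne_zero hc0 hs0), ARF_tr τ hτ hESF hGFX _ hExth M hM m hmS hMm,
    ARF_tr τ hτ hESF hGFX _ hExth M' M'.2 m' hm' hMm']
  have h1 := hZφ (⟨M, hM⟩⁻¹ * f * ⟨M, hM⟩)
  have h2 : (MulAut.conj g0⁻¹ * x) (⟨M, hM⟩⁻¹ * f * ⟨M, hM⟩) = M'⁻¹ * x f * M' := by
    rw [MulAut.mul_apply, MulAut.conj_apply, map_mul, map_mul, map_inv, hM']
    group
  rw [h2] at h1
  exact h1

end Pool.Agent.EXT
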