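import Pool.Agent.helper17.EXT.Spec

/-!
# Project EXT (MP_561ff4_al), row BPF: the case `r = p`
-/

set_option autoImplicit false

open Finset

namespace Pool.Agent.EXT

open Pool.Agent.EXC

theorem BPF_xe_zero {K : Type} [Field K] (a v : Lm C6 K) : xe C6 a 0 v = v := by
  unfold xe
  rw [zero_smul, add_zero]
  have : (0 : K) ^ 2 * fm C6 a v = 0 := by ring
  rw [this, zero_smul, add_zero]

theorem BPF_finite {K : Type} [Field K] [Finite K] (τ : K ≃+* K) : Finite (GF τ) := by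
  have h1 : Finite (LT τ) := Subtype.finite
  exact Subtype.finite

theorem BPF_inv {K : Type} [Field K] (τ : K ≃+* K) (hτ : ∀ x, τ (τ x) = x) (hGFX : GFX_stmt)
    (a : Lm C6 K) (ha : ExS τ a) (f : GF τ) (hf : InX τ a (f : Equiv.Perm (LT τ))) :
    InX τ a ((f⁻¹ : GF τ) : Equiv.Perm (LT τ)) := by
  obtain ⟨t, ht, hft⟩ := hf
  obtain ⟨-, h2⟩ := hGFX K τ hτ
  obtain ⟨hex, -, hadd, -, -⟩ := h2 a ha
  have htn : τ (-t) = -t := by rw [map_neg, ht]
  obtain ⟨k, hk, hkt⟩ := hex (-t) htn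
  have h3 := hadd (-t) t k _ hkt hft
  rw [neg_add_cancel] at h3
  have h4 : k * (f : Equiv.Perm (LT τ)) = 1 := by
    apply Equiv.ext
    intro v
    apply Subtype.ext
    rw [h3 v, BPF_xe_zero]
    rfl
  have h5 : k = (f : Equiv.Perm (LT τ))⁻¹ := eq_inv_of_mul_eq_one_left h4
  refine ⟨-t, htn, ?_⟩
  have h6 : ((f⁻¹ : GF τ) : Equiv.Perm (LT τ)) = k := by
    rw [h5]
    rfl
  rw [h6]
  exact hkt

theorem BPF (hRPF : RPF_stmt) (hPEF : PEF_stmt) (hFXF : FXF_stmt) (hGFX : GFX_stmt)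
    (hGRQ : GRQ_stmt) : BPF_stmt := by
  intro K _ _ τ hτ x hRA hx p hp hchar
  obtain ⟨a, a', m, hExa, hExa', hIm, hTp, hm, f, hXf, hxf⟩ := hRPF K τ hτ x hRA hx
  have hX' := (hIm f).1 hXf
  have hY : (x f * f⁻¹) ^ (p ^ 2) = 1 :=
    hPEF K τ hτ p hp hchar a a' m hTp hm f⁻¹ (x f) (BPF_inv τ hτ hGFX a hExa f hXf) hX'
  have := BPF_finite τ
  have hG := hGRQ (GF τ) x f p 1 (fun _ => 1) (x f * f⁻¹) le_rfl
  apply hG
  · apply Subgroup.subset_closure
    exact ⟨0, by simp⟩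
  intro m' hm'
  have hc1 : MulAut.conj (x f * f⁻¹) ≠ 1 := by
    intro hcon
    have h1 : x f * f⁻¹ = 1 := by
      apply (hFXF K τ hτ).2
      intro g
      have h2 : MulAut.conj (x f * f⁻¹) g = g := by
        rw [hcon]
        rfl
      rw [MulAut.conj_apply, mul_inv_eq_iff_eq_mul] at h2
      exact h2
    exact hxf (mul_inv_eq_one.1 h1)
  have hcp : MulAut.conj (x f * f⁻¹) ^ (p ^ 2) = 1 := by
    rw [← map_pow, hY, map_one]
  obtain ⟨k, hk2, hk⟩ := (Nat.dvd_prime_pow hp).1 (orderOf_dvd_of_pow_eq_one hcp)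
  have hk0 : k ≠ 0 := by
    rintro rfl
    rw [pow_zero, orderOf_eq_one_iff] at hk
    exact hc1 hk
  have h5 : p ∣ orderOf (MulAut.conj (x f * f⁻¹)) := by
    rw [hk]
    exact dvd_pow_self p hk0
  exact h5.trans (orderOf_dvd_of_pow_eq_one hm')

end Pool.Agent.EXT
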