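import Pool.Agent.helper53.EXT.SpecG

set_option autoImplicit false

open Finset

namespace Pool.Agent.EXT

open Pool.Agent.EXC

theorem G5L (hG5R : G5R_stmt) (hG5A : G5A_stmt) (hG5S : G5S_stmt) (hSGR : SGR_stmt) : G5L_stmt := by
  intro K _ τ hτ F₀ hF
  obtain ⟨a1, a2, a3, a4⟩ := hG5A K
  have hmap : ∀ A B : Matrix.SpecialLinearGroup (Fin 4) F₀,
      ((A * B : Matrix.SpecialLinearGroup (Fin 4) F₀) : Matrix (Fin 4) (Fin 4) F₀).map F₀.subtype =
        (A : Matrix (Fin 4) (Fin 4) F₀).map F₀.subtype * (B : Matrix (Fin 4) (Fin 4) F₀).map F₀.subtype := by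
    intro A B
    rw [Matrix.SpecialLinearGroup.coe_mul, Matrix.map_mul]
  have hone : ((1 : Matrix.SpecialLinearGroup (Fin 4) F₀) : Matrix (Fin 4) (Fin 4) F₀).map F₀.subtype =
      (1 : Matrix (Fin 4) (Fin 4) K) := by
    rw [Matrix.SpecialLinearGroup.coe_one]
    exact Matrix.map_one _ (map_zero _) (map_one _)
  have hinv : ∀ (g : Lm C6 K ≃ₗ[K] Lm C6 K) (A : Matrix.SpecialLinearGroup (Fin 4) F₀),
      Mo g ((A : Matrix (Fin 4) (Fin 4) F₀).map F₀.subtype) →
      Mo g⁻¹ (((A⁻¹ : Matrix.SpecialLinearGroup (Fin 4) F₀) : Matrix (Fin 4) (Fin 4) F₀).map F₀.subtype) := by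
    intro g A h
    refine a3 g _ _ ?_ h
    rw [← hmap, mul_inv_cancel, hone]
  have key : ∀ G : Matrix.SpecialLinearGroup (Fin 4) F₀, G ∈ Subgroup.closure
      {m : Matrix.SpecialLinearGroup (Fin 4) F₀ | ∃ (a b : Fin 4) (t : F₀), a ≠ b ∧
        (m : Matrix (Fin 4) (Fin 4) F₀) = 1 + Matrix.single a b t} →
      ∃ g ∈ GS τ, Mo g ((G : Matrix (Fin 4) (Fin 4) F₀).map F₀.subtype) := by
    intro G hG
    induction hG using Subgroup.closure_induction with
    | mem m hm =>
      obtain ⟨a, b, t, hab, hmt⟩ := hm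
      obtain ⟨s, hs, hs2⟩ := a1 a b hab
      have hτs : τ ((s : K) * (t : K)) = (s : K) * (t : K) := by
        rw [map_mul, hF t t.2]
        congr 1
        rcases hs with rfl | rfl
        · simp
        · simp
      obtain ⟨g, hg, hgx⟩ := (hSGR K τ hτ).2.1 (gm a - gm b) ((s : K) * t) (hG5R.1 a b hab) hτs
      refine ⟨g, hg, ?_⟩
      have h1 := hs2 _ g hgx
      have hss : (s : K) * ((s : K) * (t : K)) = (t : K) := by
        rcases hs with rfl | rfl
        · simp
        · simp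
      rw [hss] at h1
      have h2 : (m : Matrix (Fin 4) (Fin 4) F₀).map F₀.subtype = 1 + Matrix.single a b (t : K) := by
        rw [hmt]
        ext k l
        simp only [Matrix.map_apply, Matrix.add_apply, Matrix.one_apply, Matrix.single_apply]
        split_ifs <;> simp
      rw [h2]
      exact h1
    | one => exact ⟨1, (GS τ).one_mem, by rw [hone]; exact a4⟩
    | mul x y _ _ hx hy =>
      obtain ⟨g, hg, h1⟩ := hx
      obtain ⟨g', hg', h2⟩ := hy
      exact ⟨g * g', (GS τ).mul_mem hg hg', by rw [hmap]; exact a2 g g' _ _ h1 h2⟩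
    | inv x _ hx =>
      obtain ⟨g, hg, h1⟩ := hx
      exact ⟨g⁻¹, (GS τ).inv_mem hg, hinv g x h1⟩
  intro G
  obtain ⟨g, hg, h⟩ := key G (by rw [hG5S F₀]; trivial)
  exact ⟨g, hg, h, hinv g G h⟩

end Pool.Agent.EXT
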