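import Pool.Agent.helper53.EXT.SpecG
import Pool.Agent.helper74.EXC.ACT

set_option autoImplicit false

open Finset

namespace Pool.Agent.EXT

open Pool.Agent.EXC

theorem G5A_base {K : Type} [Field K] (hG5R : G5R_stmt) (i j : Fin 4) (hij : i ≠ j) (t : K) (k : Fin 4) :
    xe C6 (E C6 (gm i - gm j)) t (E C6 (gm k)) =
      (E C6 (gm k) + (if k = j then ((sg C6 (gm i - gm j) (gm j) : ℤ) : K) * t else 0) • E C6 (gm i) : Lm C6 K) := by
  obtain ⟨hLR, hSR, hip, -, -, -, -, -⟩ := hG5R
  obtain ⟨h1, h2, -, -, -⟩ := ACT 6 C6 K (gm i - gm j) t (hLR i j hij).1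
  have hk := hip i j k hij
  by_cases hkj : k = j
  · subst hkj
    rw [if_pos rfl]
    rw [if_neg hij, if_pos rfl] at hk
    rw [h2 (gm k) (hSR k).1 (by rw [hk]; norm_num), sub_add_cancel, mul_comm]
  · rw [if_neg hkj, zero_smul, add_zero]
    refine h1 (gm k) (hSR k).1 ?_
    have hjk : ¬ j = k := fun h => hkj h.symm
    rw [hk, if_neg hjk]
    split_ifs <;> norm_num

theorem G5A (hG5R : G5R_stmt) : G5A_stmt := by
  intro K _
  refine ⟨?_, ?_, ?_, ?_⟩
  · intro i j hij
    refine ⟨sg C6 (gm i - gm j) (gm j), ?_, ?_⟩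
    · unfold sg
      split_ifs
      · exact Or.inl rfl
      · exact Or.inr rfl
    · intro t g hg c
      have h1 : g (io4 c) = ∑ k, c k • (E C6 (gm k) + (if k = j then
          ((sg C6 (gm i - gm j) (gm j) : ℤ) : K) * t else 0) • E C6 (gm i) : Lm C6 K) := by
        unfold io4
        rw [map_sum]
        refine Finset.sum_congr rfl fun k _ => ?_
        rw [map_smul, hg, G5A_base hG5R i j hij t k]
      rw [h1]
      have h2 : ((1 + Matrix.single i j (((sg C6 (gm i - gm j) (gm j) : ℤ) : K) * t) :
          Matrix (Fin 4) (Fin 4) K).mulVec c) =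
          fun k => c k + (if k = i then ((sg C6 (gm i - gm j) (gm j) : ℤ) : K) * t * c j else 0) := by
        funext k
        rw [Matrix.add_mulVec, Matrix.one_mulVec, Pi.add_apply]
        congr 1
        rw [Matrix.single_mulVec]
        by_cases hk : k = i
        · subst hk
          rw [if_pos rfl]
          simp
        · rw [if_neg hk]
          simp [hk]
      rw [h2]
      unfold io4
      simp only [smul_add, add_smul, Finset.sum_add_distrib, smul_smul]
      congr 1
      simp only [mul_ite, mul_zero, ite_smul, zero_smul, Finset.sum_ite_eq', Finset.mem_univ, if_true]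
      congr 1
      ring
  · intro g g' P P' h h' c
    rw [← Matrix.mulVec_mulVec, ← h, ← h']
    rfl
  · intro g P P' hPP h c
    have h1 := h (P'.mulVec c)
    rw [Matrix.mulVec_mulVec, hPP, Matrix.one_mulVec] at h1
    rw [← h1]
    exact LinearEquiv.symm_apply_apply g _
  · intro c
    rw [Matrix.one_mulVec]
    rfl

end Pool.Agent.EXT
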